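import Pool.Agent.K3h83.IN.Stm3

/-!
# A subgroup of index `p` with non-central fixed points
-/

set_option autoImplicit false

open scoped BigOperators Classical

noncomputable section

namespace Pool.Agent.K3h73.IN

open Pool.Agent.K3h83.IN

variable {M X : Type} [Group M] [Group X]

/-- the action on `M / Z(M)` -/
def psi (φ : X →* MulAut M) (hc : ∀ (x : X) (z : M), z ∈ Subgroup.center M → φ x z = z) (x : X) :
    (M ⧸ Subgroup.center M) →* (M ⧸ Subgroup.center M) :=
  QuotientGroup.map (Subgroup.center M) (Subgroup.center M) (φ x).toMonoidHom (by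
    intro z hz
    rw [Subgroup.mem_comap]
    change φ x z ∈ _
    rw [hc x z hz]
    exact hz)

theorem psi_mk (φ : X →* MulAut M) (hc : ∀ (x : X) (z : M), z ∈ Subgroup.center M → φ x z = z)
    (x : X) (m : M) : psi φ hc x (m : M ⧸ Subgroup.center M) = ((φ x m : M) : M ⧸ Subgroup.center M) :=
  rfl

theorem psi_mul (φ : X →* MulAut M) (hc : ∀ (x : X) (z : M), z ∈ Subgroup.center M → φ x z = z)
    (x y : X) (u : M ⧸ Subgroup.center M) : psi φ hc (x * y) u = psi φ hc x (psi φ hc y u) := by
  induction u using QuotientGroup.induction_on with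
  | H m => rw [psi_mk, psi_mk, psi_mk, map_mul, MulAut.mul_apply]

theorem psi_one (φ : X →* MulAut M) (hc : ∀ (x : X) (z : M), z ∈ Subgroup.center M → φ x z = z)
    (u : M ⧸ Subgroup.center M) : psi φ hc 1 u = u := by
  induction u using QuotientGroup.induction_on with
  | H m => rw [psi_mk, map_one, MulAut.one_apply]

/-- the stabilizer of a class -/
def stab (φ : X →* MulAut M) (hc : ∀ (x : X) (z : M), z ∈ Subgroup.center M → φ x z = z)
    (u : M ⧸ Subgroup.center M) : Subgroup X where
  carrier := {x | psi φ hc x u = u}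
  mul_mem' := by
    intro a b ha hb
    change psi φ hc (a * b) u = u
    rw [psi_mul, hb, ha]
  one_mem' := psi_one φ hc u
  inv_mem' := by
    intro a ha
    change psi φ hc a⁻¹ u = u
    have h1 : psi φ hc a u = u := ha
    have h2 := psi_mul φ hc a⁻¹ a u
    rw [inv_mul_cancel, psi_one, h1] at h2
    exact h2.symm

theorem pow_val {p : ℕ} [Fact p.Prime] {c : X} (hc : c ^ p = 1) (n : ℕ) :
    c ^ ((n : ZMod p).val) = c ^ n := by
  rw [ZMod.val_natCast]
  conv_rhs => rw [← Nat.mod_add_div n p, pow_add, pow_mul, hc, one_pow, mul_one]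

theorem prod_fix {p : ℕ} [Fact p.Prime] {U : Type} [CommMonoid U] (f : ZMod p → U) :
    ∏ i, f (i + 1) = ∏ i, f i :=
  Fintype.prod_equiv (Equiv.addRight 1) _ _ (fun i => rfl)

/-- if `H ≤ E = H ⊔ ⟨x⟩`, `x ∉ H`, `x ^ p = 1` then `H` has index `p` -/
theorem relIndex_of {p : ℕ} [Fact p.Prime] {E H : Subgroup X}
    (Eab : ∀ a ∈ E, ∀ b ∈ E, a * b = b * a) (hHE : H ≤ E) {x : X} (hxE : x ∈ E) (hxH : x ∉ H)
    (hxp : x ^ p = 1) (hall : ∀ y ∈ E, y ∈ H ⊔ Subgroup.zpowers x) : H.relIndex E = p := by
  haveI : (H.subgroupOf E).Normal := by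
    constructor
    intro n hn g
    have : g * n * g⁻¹ = n := by
      have h1 : (g : E) * n = n * g := Subtype.ext (Eab _ g.2 _ n.2)
      rw [h1, mul_inv_cancel_right]
    rw [this]
    exact hn
  let Q := E ⧸ (H.subgroupOf E)
  let xb : Q := ((⟨x, hxE⟩ : E) : E ⧸ (H.subgroupOf E))
  have hne : xb ≠ 1 := by
    intro h
    rw [QuotientGroup.eq_one_iff, Subgroup.mem_subgroupOf] at h
    exact hxH h
  have hpow : xb ^ p = 1 := by
    change ((⟨x, hxE⟩ : E) : E ⧸ (H.subgroupOf E)) ^ p = 1
    rw [← QuotientGroup.mk_pow, QuotientGroup.eq_one_iff]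
    have : (⟨x, hxE⟩ : E) ^ p = 1 := Subtype.ext (by simpa using hxp)
    rw [this]
    exact one_mem _
  have hord : orderOf xb = p := orderOf_eq_prime hpow hne
  have hgen : ∀ y : Q, y ∈ Subgroup.zpowers xb := by
    intro y
    induction y using QuotientGroup.induction_on with
    | H y =>
      let L : Subgroup X := ((Subgroup.zpowers xb).comap (QuotientGroup.mk' (H.subgroupOf E))).map
        E.subtype
      have h1 : H ≤ L := by
        intro h hh
        refine ⟨⟨h, hHE hh⟩, ?_, rfl⟩
        change ((⟨h, hHE hh⟩ : E) : E ⧸ (H.subgroupOf E)) ∈ Subgroup.zpowers xb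
        have : ((⟨h, hHE hh⟩ : E) : E ⧸ (H.subgroupOf E)) = 1 := by
          rw [QuotientGroup.eq_one_iff, Subgroup.mem_subgroupOf]
          exact hh
        rw [this]
        exact one_mem _
      have h2 : Subgroup.zpowers x ≤ L := by
        rw [Subgroup.zpowers_le]
        exact ⟨⟨x, hxE⟩, Subgroup.mem_zpowers xb, rfl⟩
      have h3 : (y : X) ∈ L := (sup_le h1 h2) (hall y y.2)
      obtain ⟨y', hy', hy2⟩ := h3
      have : y' = y := Subtype.ext hy2
      rw [this] at hy'
      exact hy'
  have h4 := orderOf_eq_card_of_forall_mem_zpowers hgen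
  rw [Subgroup.relIndex, Subgroup.index, ← h4, hord]

theorem t_T4 (h : T1) : T4 := by
  intro p q _ _ M X _ _ _ _ φ E R D hM
  have hc := D.cen
  haveI : Finite (Subgroup X) := inferInstance
  -- a maximal subgroup with non-central fixed points
  obtain ⟨H, hH⟩ := (Set.toFinite {H : Subgroup X | H ≤ E ∧ Fx φ H ≠ Subgroup.center M}).exists_maximal
    ⟨⊥, bot_le, by
      intro hb
      apply hM
      rw [← hb, eq_top_iff]
      intro m _ x hx
      rw [Subgroup.mem_bot] at hx
      rw [hx, map_one, MulAut.one_apply]⟩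
  have hHE : H ≤ E := hH.prop.1
  have hHF : Fx φ H ≠ Subgroup.center M := hH.prop.2
  have hcF : ∀ K : Subgroup X, Subgroup.center M ≤ Fx φ K := fun K z hz x _ => hc x z hz
  have hmax : ∀ c ∈ E, c ∉ H → Fx φ (H ⊔ Subgroup.zpowers c) = Subgroup.center M := by
    intro c hcE hcH
    by_contra hne
    have h1 : H ⊔ Subgroup.zpowers c ≤ H := hH.le_of_ge
      ⟨sup_le hHE ((Subgroup.zpowers_le).mpr hcE), hne⟩ le_sup_left
    exact hcH (h1 (Subgroup.mem_sup_right (Subgroup.mem_zpowers c)))
  have hEF : Fx φ E = Subgroup.center M := le_antisymm (fun m hm => D.fpf m hm) (hcF E)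
  have hHneE : ∃ x ∈ E, x ∉ H := by
    by_contra hcon
    push Not at hcon
    exact hHF ((le_antisymm hHE hcon) ▸ hEF)
  obtain ⟨b, hbE, hbH⟩ := hHneE
  refine ⟨H, hHE, ?_, hHF⟩
  refine relIndex_of D.Eab hHE hbE hbH (D.Epow b hbE) ?_
  by_contra hcon
  push Not at hcon
  obtain ⟨a, haE, haH⟩ := hcon
  -- a non-central fixed point
  obtain ⟨m, hmF, hmc⟩ : ∃ m ∈ Fx φ H, m ∉ Subgroup.center M := by
    by_contra hcon
    push Not at hcon
    exact hHF (le_antisymm hcon (hcF H))
  letI : CommGroup (M ⧸ Subgroup.center M) :=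
    { (inferInstance : Group (M ⧸ Subgroup.center M)) with
      mul_comm := by
        intro u v
        induction u using QuotientGroup.induction_on with
        | H a =>
          induction v using QuotientGroup.induction_on with
          | H b =>
            rw [← QuotientGroup.mk_mul, ← QuotientGroup.mk_mul, QuotientGroup.eq]
            have h1 := D.sy.com b⁻¹ a⁻¹
            have h2 : (a * b)⁻¹ * (b * a) = b⁻¹ * a⁻¹ * b⁻¹⁻¹ * a⁻¹⁻¹ := by group
            rw [h2]
            exact h1 }
  set u : M ⧸ Subgroup.center M := (m : M ⧸ Subgroup.center M) with hu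
  have key : ∀ (K : Subgroup X), K ≤ E → Fx φ K = Subgroup.center M →
      ∀ v : M ⧸ Subgroup.center M, (∀ k ∈ K, psi φ hc k v = v) → v = 1 := by
    intro K hK hF v hv
    induction v using QuotientGroup.induction_on with
    | H n =>
      rw [QuotientGroup.eq_one_iff, ← hF]
      intro k hk
      refine h p q M X φ E R D k (hK hk) n ?_
      have h1 := hv k hk
      rw [psi_mk, QuotientGroup.eq] at h1
      -- (φ k n)⁻¹ * n is central
      have h2 : φ k n * n⁻¹ = n * ((φ k n)⁻¹ * n)⁻¹ * n⁻¹ := by group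
      rw [h2]
      exact (inferInstance : (Subgroup.center M).Normal).conj_mem _ (inv_mem h1) n
  have hHu : ∀ k ∈ H, psi φ hc k u = u := by
    intro k hk
    rw [hu, psi_mk, hmF k hk]
  have hHx : ∀ k ∈ H, ∀ x ∈ E, psi φ hc k (psi φ hc x u) = psi φ hc x u := by
    intro k hk x hx
    rw [← psi_mul, D.Eab k (hHE hk) x hx, psi_mul, hHu k hk]
  -- norms
  have hN : ∀ c ∈ E, c ∉ H → ∏ i : ZMod p, psi φ hc (c ^ i.val) u = 1 := by
    intro c hcE hcH
    refine key (H ⊔ Subgroup.zpowers c) (sup_le hHE ((Subgroup.zpowers_le).mpr hcE))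
      (hmax c hcE hcH) _ ?_
    have hsub : H ⊔ Subgroup.zpowers c ≤ stab φ hc (∏ i : ZMod p, psi φ hc (c ^ i.val) u) := by
      apply sup_le
      · intro k hk
        change psi φ hc k _ = _
        rw [map_prod]
        exact Finset.prod_congr rfl fun i _ => hHx k hk _ (pow_mem hcE _)
      · rw [Subgroup.zpowers_le]
        change psi φ hc c _ = _
        rw [map_prod]
        rw [← prod_fix (fun i : ZMod p => psi φ hc (c ^ i.val) u)]
        refine Finset.prod_congr rfl fun i _ => ?_
        rw [← psi_mul, ← pow_succ']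
        congr 2
        have h1 : ((i.val + 1 : ℕ) : ZMod p) = i + 1 := by
          push_cast
          rw [ZMod.natCast_zmod_val]
        rw [← h1, pow_val (D.Epow c hcE)]
    exact fun k hk => hsub hk
  -- the total norm
  have hS : ∏ i : ZMod p, ∏ j : ZMod p, psi φ hc (a ^ i.val * b ^ j.val) u = 1 := by
    refine key (H ⊔ Subgroup.zpowers b) (sup_le hHE ((Subgroup.zpowers_le).mpr hbE))
      (hmax b hbE hbH) _ ?_
    have hsub : H ⊔ Subgroup.zpowers b ≤
        stab φ hc (∏ i : ZMod p, ∏ j : ZMod p, psi φ hc (a ^ i.val * b ^ j.val) u) := by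
      apply sup_le
      · intro k hk
        change psi φ hc k _ = _
        simp only [map_prod]
        exact Finset.prod_congr rfl fun i _ => Finset.prod_congr rfl fun j _ =>
          hHx k hk _ (mul_mem (pow_mem haE _) (pow_mem hbE _))
      · rw [Subgroup.zpowers_le]
        change psi φ hc b _ = _
        simp only [map_prod]
        refine Finset.prod_congr rfl fun i _ => ?_
        rw [← prod_fix (fun j : ZMod p => psi φ hc (a ^ i.val * b ^ j.val) u)]
        refine Finset.prod_congr rfl fun j _ => ?_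
        rw [← psi_mul, ← mul_assoc, D.Eab b hbE _ (pow_mem haE _), mul_assoc, ← pow_succ']
        congr 3
        have h1 : ((j.val + 1 : ℕ) : ZMod p) = j + 1 := by
          push_cast
          rw [ZMod.natCast_zmod_val]
        rw [← h1, pow_val (D.Epow b hbE)]
    exact fun k hk => hsub hk
  -- counting
  have hab : ∀ k : ℕ, a * b ^ k ∈ E := fun k => mul_mem haE (pow_mem hbE k)
  have habH : ∀ k : ℕ, a * b ^ k ∉ H := by
    intro k hk
    apply haH
    have h1 : a = (a * b ^ k) * (b ^ k)⁻¹ := by group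
    rw [h1]
    exact mul_mem (Subgroup.mem_sup_left hk)
      (inv_mem (pow_mem (Subgroup.mem_sup_right (Subgroup.mem_zpowers b)) k))
  have hcount : (∏ k : ZMod p, ∏ i : ZMod p, psi φ hc ((a * b ^ k.val) ^ i.val) u) *
      ∏ j : ZMod p, psi φ hc (b ^ j.val) u =
      (∏ i : ZMod p, ∏ j : ZMod p, psi φ hc (a ^ i.val * b ^ j.val) u) * u ^ p := by
    rw [Finset.prod_comm]
    have e1 : ∀ i k : ZMod p, (a * b ^ k.val) ^ i.val = a ^ i.val * b ^ ((k * i).val) := by
      intro i k
      have hcomm : Commute a (b ^ k.val) := D.Eab a haE _ (pow_mem hbE _)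
      rw [hcomm.mul_pow, ← pow_mul]
      congr 1
      have h1 : ((k.val * i.val : ℕ) : ZMod p) = k * i := by
        push_cast
        rw [ZMod.natCast_zmod_val, ZMod.natCast_zmod_val]
      rw [← h1, pow_val (D.Epow b hbE)]
    simp only [e1]
    rw [← Finset.mul_prod_erase Finset.univ (fun i : ZMod p => ∏ k : ZMod p,
      psi φ hc (a ^ i.val * b ^ (k * i).val) u) (Finset.mem_univ 0),
      ← Finset.mul_prod_erase Finset.univ (fun i : ZMod p => ∏ j : ZMod p,
      psi φ hc (a ^ i.val * b ^ j.val) u) (Finset.mem_univ 0)]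
    have e2 : ∏ k : ZMod p, psi φ hc (a ^ (0 : ZMod p).val * b ^ (k * 0).val) u = u ^ p := by
      simp only [mul_zero, ZMod.val_zero, pow_zero, one_mul, psi_one, Finset.prod_const,
        Finset.card_univ, ZMod.card]
    have e3 : ∏ i ∈ Finset.univ.erase (0 : ZMod p), ∏ k : ZMod p,
        psi φ hc (a ^ i.val * b ^ (k * i).val) u =
        ∏ i ∈ Finset.univ.erase (0 : ZMod p), ∏ j : ZMod p,
        psi φ hc (a ^ i.val * b ^ j.val) u := by
      refine Finset.prod_congr rfl fun i hi => ?_
      have hi0 : i ≠ 0 := Finset.ne_of_mem_erase hi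
      exact Fintype.prod_equiv (Equiv.mulRight₀ i hi0) _ _ (fun k => rfl)
    have e4 : ∏ j : ZMod p, psi φ hc (a ^ (0 : ZMod p).val * b ^ j.val) u =
        ∏ j : ZMod p, psi φ hc (b ^ j.val) u := by
      simp only [ZMod.val_zero, pow_zero, one_mul]
    rw [e2, e3, e4]
    ac_rfl
  have h1 : ∏ k : ZMod p, ∏ i : ZMod p, psi φ hc ((a * b ^ k.val) ^ i.val) u = 1 :=
    Finset.prod_eq_one fun k _ => hN _ (hab _) (habH _)
  rw [h1, hN b hbE hbH, hS, one_mul, one_mul] at hcount
  have hup : u ^ p = 1 := hcount.symm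
  have huq : u ^ q = 1 := by
    rw [hu, ← QuotientGroup.mk_pow, QuotientGroup.eq_one_iff]
    exact D.sy.pow m
  have hu1 : u = 1 := by
    have h2 : orderOf u ∣ Nat.gcd p q := Nat.dvd_gcd (orderOf_dvd_of_pow_eq_one hup)
      (orderOf_dvd_of_pow_eq_one huq)
    have h3 : Nat.gcd p q = 1 := (Nat.coprime_primes Fact.out Fact.out).mpr D.ne
    rw [h3, Nat.dvd_one, orderOf_eq_one_iff] at h2
    exact h2
  apply hmc
  rw [hu, QuotientGroup.eq_one_iff] at hu1
  exact hu1

end Pool.Agent.K3h73.IN
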